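import Pool.Agent.Lib.MP_b7b1cf_co.Chi.Dbl

set_option autoImplicit false

namespace Pool.Agent.Results.MP_b7b1cf_co.Chirotope

open Pool.Agent.Lib.MP_b7b1cf_co.Chi

universe u

/-- For two oriented matroids of the same rank, given by chirotopes, the pair formed by the first
and the dual of the second has a common covector if and only if it has a common vector, if and only
if there is no common basis or the chirotope sign condition holds. -/
theorem result {E : Type u} [Finite E] {r : ℕ} (χ₁ χ₂ : (Fin r → E) → SignType)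
    (h₁ : IsChirotope χ₁) (h₂ : IsChirotope χ₂) :
    List.TFAE [∃ X : E → SignType, X ≠ 0 ∧ X ∈ covectors χ₁ ∧ X ∈ vectors χ₂,
      ∃ Y : E → SignType, Y ≠ 0 ∧ Y ∈ vectors χ₁ ∧ Y ∈ covectors χ₂,
      (∀ x, χ₁ x * χ₂ x = 0) ∨ ∃ x y, χ₁ x * χ₂ x * χ₁ y * χ₂ y = -1] := by
  classical
  have := Fintype.ofFinite E
  have a := common_iff h₁ h₂
  have b := common_iff h₂ h₁
  have c : ((∀ x, χ₂ x * χ₁ x = 0) ∨ ∃ x y, χ₂ x * χ₁ x * χ₂ y * χ₁ y = -1) ↔
      ((∀ x, χ₁ x * χ₂ x = 0) ∨ ∃ x y, χ₁ x * χ₂ x * χ₁ y * χ₂ y = -1) := by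
    refine or_congr (forall_congr' fun x => by rw [mul_comm])
      (exists_congr fun x => exists_congr fun y => ?_)
    rw [mul_comm (χ₂ x), mul_right_comm _ (χ₂ y)]
  tfae_have 1 ↔ 3 := by
    rw [← c, ← b]
    exact exists_congr fun X => and_congr_right fun _ => and_comm
  tfae_have 2 ↔ 3 := a
  tfae_finish

end Pool.Agent.Results.MP_b7b1cf_co.Chirotope
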